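import Pool.Agent.N688.FB.Loc

set_option autoImplicit false
set_option maxHeartbeats 4000000

/-!
# Bohr structure of the patterns found in many windows
-/

open Filter Finset Topology

namespace Pool.Agent.N688.NA

open Pool.Agent.N646.AC (Bz)

open Classical in
/-- the number of the windows in which the pattern occurs -/
noncomputable def freq {ι : Type} {m : ℕ} (W : Finset ι) (Occ : ι → (Fin m → ℤ) → Prop)
    (y : Fin m → ℤ) : ℕ :=
  (W.filter (fun J => Occ J y)).card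

open Classical in
/-- pigeonhole over the patterns -/
theorem common {ι : Type} {m K : ℕ} (hmK : m ≤ K) (W : Finset ι) (Occ : ι → (Fin m → ℤ) → Prop)
    (F : Finset ℤ) (hF : F.card = K) (G : Finset ι) (hG : G ⊆ W) (hGW : W.card ≤ 2 * G.card)
    (hocc : ∀ J ∈ G, ∃ y : Fin m → ℤ, StrictMono y ∧ (∀ i, y i ∈ F) ∧ Occ J y) :
    ∃ y : Fin m → ℤ, StrictMono y ∧ (∀ i, y i ∈ F) ∧
      (1 / (2 * (K : ℝ) ^ m + 1)) * W.card ≤ (freq W Occ y : ℝ) := by
  set t : Finset (Fin m → ℤ) := (Fintype.piFinset (fun _ : Fin m => F)).filter (fun y => StrictMono y)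
    with ht
  have htne : t.Nonempty := by
    obtain ⟨F', hF', hF'c⟩ := exists_subset_card_eq (hmK.trans hF.ge)
    refine ⟨fun i => F'.orderEmbOfFin hF'c i, ?_⟩
    rw [ht, mem_filter, Fintype.mem_piFinset]
    exact ⟨fun i => hF' (F'.orderEmbOfFin_mem hF'c i), (F'.orderEmbOfFin hF'c).strictMono⟩
  have htc : (t.card : ℝ) ≤ (K : ℝ) ^ m := by
    have h1 : t.card ≤ K ^ m := by
      refine (card_filter_le _ _).trans ?_
      rw [Fintype.card_piFinset_const, hF]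
    exact_mod_cast h1
  choose! f hf using hocc
  have hmaps : ∀ J ∈ G, f J ∈ t := by
    intro J hJ
    obtain ⟨h1, h2, -⟩ := hf J hJ
    rw [ht, mem_filter, Fintype.mem_piFinset]
    exact ⟨h2, h1⟩
  have ht0 : (0 : ℝ) < t.card := by exact_mod_cast htne.card_pos
  obtain ⟨y, hy, hyc⟩ := Finset.exists_le_card_fiber_of_nsmul_le_card_of_maps_to
    (M := ℝ) (b := (G.card : ℝ) / t.card) hmaps htne (by
      rw [nsmul_eq_mul, mul_div_cancel₀ _ ht0.ne'])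
  have hy' := mem_filter.1 hy
  refine ⟨y, hy'.2, fun i => Fintype.mem_piFinset.1 hy'.1 i, ?_⟩
  have h1 : ((G.filter (fun J => f J = y)).card : ℝ) ≤ (freq W Occ y : ℝ) := by
    unfold freq
    rw [Nat.cast_le]
    apply card_le_card
    intro J hJ
    rw [mem_filter] at hJ ⊢
    refine ⟨hG hJ.1, ?_⟩
    have := (hf J hJ.1).2.2
    rwa [hJ.2] at this
  refine le_trans ?_ (hyc.trans h1)
  have hW : (W.card : ℝ) ≤ 2 * G.card := by exact_mod_cast hGW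
  have hKm : (0 : ℝ) ≤ (K : ℝ) ^ m := by positivity
  have hG0 : (0 : ℝ) ≤ (G.card : ℝ) := Nat.cast_nonneg _
  rw [div_mul_eq_mul_div, one_mul, div_le_div_iff₀ (by positivity) ht0]
  have hW0 : (0 : ℝ) ≤ (W.card : ℝ) := Nat.cast_nonneg _
  calc (W.card : ℝ) * t.card ≤ (2 * G.card) * (K : ℝ) ^ m :=
        mul_le_mul hW htc ht0.le (by positivity)
    _ ≤ G.card * (2 * (K : ℝ) ^ m + 1) := by nlinarith

/-- **Bohr structure of the patterns found in many windows** -/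
theorem bohr_windows (k s K : ℕ) (ε : ℝ) (hε : 0 < ε) :
    ∃ (d H₀ : ℕ) (ρ δ κ : ℝ), 0 < ρ ∧ 0 < δ ∧ 0 < κ ∧ ∀ H : ℕ, H₀ ≤ H →
      ∀ (ι : Type) (W : Finset ι) (Occ : ι → (Fin (k + 2) → ℤ) → Prop),
      (∀ F : Finset ℤ, F ⊆ Ico 0 (H : ℤ) → F.card = K + (k + 2) → ∃ G ⊆ W, W.card ≤ 2 * G.card ∧
        ∀ J ∈ G, ∃ y : Fin (k + 2) → ℤ, StrictMono y ∧ (∀ i, y i ∈ F) ∧ Occ J y) →
      ∃ (Θ : Finset ℝ) (r : ℝ), Θ.card ≤ d ∧ ρ ≤ r ∧ r ≤ 1 ∧ δ * H ≤ (Bz Θ r H).card ∧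
        (((Bz Θ r H).filter (fun b => ¬ ∀ j : ℕ, 1 ≤ j → j ≤ s →
          κ * (H : ℝ) ^ (k + 1) ≤ Pool.Agent.N688.FB.loc k H (fun y => StrictMono y ∧
            κ * W.card ≤ (freq W Occ y : ℝ)) (j * |b|))).card : ℝ) ≤ ε * (Bz Θ r H).card := by
  obtain ⟨d, H₀, ρ, δ, κ, hρ, hδ, hκ, hmain⟩ := Pool.Agent.N688.FB.main2 k s (K + (k + 2)) ε hε
  set c : ℝ := 1 / (2 * ((K + (k + 2) : ℕ) : ℝ) ^ (k + 2) + 1) with hc
  have hc0 : 0 < c := by positivity
  refine ⟨d, H₀, ρ, δ, min κ c, hρ, hδ, lt_min hκ hc0, fun H hH ι W Occ h => ?_⟩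
  obtain ⟨Θ, r, h1, h2, h3, h4, h5⟩ := hmain H hH (fun y => StrictMono y ∧
      min κ c * W.card ≤ (freq W Occ y : ℝ)) (by
    intro F hF hFK
    obtain ⟨G, g1, g2, g3⟩ := h F hF hFK
    obtain ⟨y, y1, y2, y3⟩ := common (by omega) W Occ F hFK G g1 g2 g3
    refine ⟨y, y1.injective, y2, y1 (by
      rw [Fin.lt_def]
      simp), y1, le_trans ?_ y3⟩
    exact mul_le_mul_of_nonneg_right (min_le_right _ _) (Nat.cast_nonneg _))
  refine ⟨Θ, r, h1, h2, h3, h4, le_trans ?_ h5⟩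
  rw [Nat.cast_le]
  apply card_le_card
  intro b hb
  rw [mem_filter] at hb ⊢
  refine ⟨hb.1, fun hall => hb.2 fun j hj1 hj2 => le_trans ?_ (hall j hj1 hj2)⟩
  exact mul_le_mul_of_nonneg_right (min_le_left _ _) (by positivity)

end Pool.Agent.N688.NA
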